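import Pool.Agent.Y981.QB.Stm2
import Pool.Agent.Y981.QB.Uni

set_option autoImplicit false

/-!
# Project QB (helper981), job QB-LD: large deviations for all speeds
-/

namespace Pool.Agent.Y419.QB

open H978R2.Hex
open Pool.Agent.Y981.QB

theorem dst_comm (u v : V) : dst u v = dst v u := by
  unfold dst
  exact norm_sub_rev _ _

/-- the choice of the constant `Λ` -/
theorem exists_Lam (c0 C1 C5 a : ℝ) (hc0 : 0 < c0) (hC1 : 0 ≤ C1) (hC5 : 0 ≤ C5) (ha : 0 ≤ a) :
    ∃ Λ : ℝ, 10 ^ 13 ≤ Λ ∧ 2 + C1 + 12 * C5 * (a + C1 * Real.log (2 * Λ)) ^ 2 ≤ c0 * Λ := by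
  set D : ℝ := 2 + C1 + 12 * C5 * (a + 4 * C1) ^ 2 with hD
  have hD0 : 0 ≤ D := by positivity
  set R : ℝ := max (10 ^ 7) (2 * D / c0) with hR
  have hR7 : 10 ^ 7 ≤ R := le_max_left _ _
  have hRD : 2 * D / c0 ≤ R := le_max_right _ _
  have hR1 : 1 ≤ R := by linarith
  have hR0 : 0 < R := by linarith
  have hsR : 1 ≤ Real.sqrt R := by
    rw [← Real.sqrt_one]
    exact Real.sqrt_le_sqrt hR1
  have hsR2 : Real.sqrt R ^ 2 = R := Real.sq_sqrt hR0.le
  refine ⟨R ^ 2 / 2, ?_, ?_⟩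
  · nlinarith
  · have h1 : 2 * (R ^ 2 / 2) = R ^ 2 := by ring
    rw [h1]
    have h2 : Real.log (R ^ 2) ≤ 4 * Real.sqrt R := by
      have h3 : Real.log (R ^ 2) = 4 * Real.log (Real.sqrt R) := by
        rw [Real.log_pow, Real.log_sqrt hR0.le]
        push_cast
        ring
      rw [h3]
      have h4 := Real.log_le_sub_one_of_pos (show 0 < Real.sqrt R by linarith)
      linarith
    have hlog0 : 0 ≤ Real.log (R ^ 2) := Real.log_nonneg (by nlinarith)
    have h3 : a + C1 * Real.log (R ^ 2) ≤ (a + 4 * C1) * Real.sqrt R := by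
      have h4 : a ≤ a * Real.sqrt R := le_mul_of_one_le_right ha hsR
      have h5 : C1 * Real.log (R ^ 2) ≤ C1 * (4 * Real.sqrt R) := mul_le_mul_of_nonneg_left h2 hC1
      nlinarith
    have h4 : (a + C1 * Real.log (R ^ 2)) ^ 2 ≤ (a + 4 * C1) ^ 2 * R := by
      have h5 : 0 ≤ a + C1 * Real.log (R ^ 2) := by positivity
      calc (a + C1 * Real.log (R ^ 2)) ^ 2 ≤ ((a + 4 * C1) * Real.sqrt R) ^ 2 :=
            pow_le_pow_left₀ h5 h3 2
        _ = (a + 4 * C1) ^ 2 * R := by rw [mul_pow, hsR2]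
    have h5 : 2 + C1 + 12 * C5 * (a + C1 * Real.log (R ^ 2)) ^ 2 ≤ D * R := by
      have h6 : 12 * C5 * (a + C1 * Real.log (R ^ 2)) ^ 2 ≤ 12 * C5 * ((a + 4 * C1) ^ 2 * R) :=
        mul_le_mul_of_nonneg_left h4 (by positivity)
      have h7 : 2 + C1 ≤ (2 + C1) * R := le_mul_of_one_le_right (by linarith) hR1
      rw [hD]
      nlinarith
    refine h5.trans ?_
    rw [div_le_iff₀ hc0] at hRD
    nlinarith

/-- `(1 + log X)^2 ≤ 4 X` -/
theorem log_sq_le {X : ℝ} (hX : 1 ≤ X) : (1 + Real.log X) ^ 2 ≤ 4 * X := by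
  have hX0 : 0 < X := by linarith
  have hs : 0 < Real.sqrt X := Real.sqrt_pos.2 hX0
  have h1 : Real.log X = 2 * Real.log (Real.sqrt X) := by
    rw [Real.log_sqrt hX0.le]
    ring
  have h2 := Real.log_le_sub_one_of_pos hs
  have h3 : 0 ≤ Real.log X := Real.log_nonneg hX
  have h4 : 1 + Real.log X ≤ 2 * Real.sqrt X := by linarith
  calc (1 + Real.log X) ^ 2 ≤ (2 * Real.sqrt X) ^ 2 := pow_le_pow_left₀ (by linarith) h4 2
    _ = 4 * X := by rw [mul_pow, Real.sq_sqrt hX0.le]; norm_num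

theorem mu0_pos : 0 < mu0 := by
  unfold mu0
  exact Real.sqrt_pos.2 (by positivity)

/-- the deterministic part -/
theorem exists_DL (h4 : S_DET) {η v s : ℝ} {w0 lam I K n : ℕ} (hη : 0 < η) (hη1 : η ≤ 1)
    (hw0 : 1 ≤ w0) (hlam : 1 ≤ lam) (hK : 1 ≤ K) (hv : 0 < v) (hn : 0 < n)
    (hs : s = v * η / (32 * w0 * (lam : ℝ) ^ I)) (hKs : (K : ℝ) ≤ 2 * (s * n))
    (hI : 3 * w0 < v * (1 + η / 2) ^ I) {u : V} {l : List V} (hl : IsSW u n l) {i j : ℕ}
    (hi : i ≤ n) (hj : j ≤ n) (hd : v * n ≤ dst (gt l i) (gt l j)) :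
    ∃ q ∈ Finset.range I, DL η (w0 * lam ^ q) lam n (gt l) K := by
  by_contra hcon
  push Not at hcon
  have hnR : (0 : ℝ) < n := by exact_mod_cast hn
  have hw0R : (1 : ℝ) ≤ w0 := by exact_mod_cast hw0
  have hlamR : (1 : ℝ) ≤ lam := by exact_mod_cast hlam
  have hP : 0 < (32 * w0 * (lam : ℝ) ^ I) := by positivity
  have key : ∀ a b : ℕ, a ≤ b → b ≤ n → v * n ≤ dst (gt l a) (gt l b) → False := by
    intro a b hab hb hdab
    have h5 := h4 η w0 lam I K n a b (gt l) hη hη1 hw0 hlam hK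
      (fun i hi => gt_adj hl.2.2.1 i (by rw [hl.1]; omega)) hab hb
      (fun i hi => hcon i (Finset.mem_range.2 hi)) (by
        refine le_trans ?_ hdab
        have h6 : 16 / η * K * (w0 * (lam : ℝ) ^ I) ≤ 16 / η * (2 * (s * n)) *
            (w0 * (lam : ℝ) ^ I) := by gcongr
        refine h6.trans (le_of_eq ?_)
        rw [hs]
        field_simp
        ring)
    have h6 : v * n * (1 + η / 2) ^ I ≤ 3 * w0 * n :=
      (mul_le_mul_of_nonneg_right hdab (by positivity)).trans h5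
    have h7 : n * (v * (1 + η / 2) ^ I) ≤ n * (3 * w0 : ℝ) := by
      calc n * (v * (1 + η / 2) ^ I) = v * n * (1 + η / 2) ^ I := by ring
        _ ≤ 3 * w0 * n := h6
        _ = _ := by ring
    have h8 := le_of_mul_le_mul_left h7 hnR
    linarith
  rcases le_total i j with h | h
  · exact key i j h hj hd
  · exact key j i h hi (by rw [dst_comm]; exact hd)

theorem ld (h1 : S_LIGHT) (h2 : S_CN) (h3 : S_CNT2) (h4 : S_DET) (h5 : S_SUM) : S_LD := by
  obtain ⟨K1, hK1, h2⟩ := h2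
  obtain ⟨K2, c0, hK2, hc0, h1⟩ := h1
  obtain ⟨Ca, hCa, hsa⟩ := h5 K1 hK1
  obtain ⟨Cb, hCb, hsb⟩ := h5 K2 hK2
  set C5 : ℝ := max Ca Cb with hC5
  have hC50 : 0 ≤ C5 := hCa.trans (le_max_left _ _)
  obtain ⟨w0, hw0⟩ : ∃ w0 : ℕ, w0 = 10 ^ 13 := ⟨_, rfl⟩
  have hw0e : Even w0 := ⟨5 * 10 ^ 12, by rw [hw0]; norm_num⟩
  obtain ⟨η, hη⟩ : ∃ η : ℝ, η = 1 / 10 ^ 12 := ⟨_, rfl⟩
  have hη0 : 0 < η := by rw [hη]; positivity
  have hη1 : η ≤ 1 := by rw [hη]; norm_num
  have hw0R : (w0 : ℝ) = 10 ^ 13 := by rw [hw0]; norm_num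
  have hw0p : (0 : ℝ) < w0 := by rw [hw0R]; positivity
  have hlw : 0 ≤ Real.log (3 * w0) := Real.log_nonneg (by rw [hw0R]; norm_num)
  set C1 : ℝ := 3 / η * (Real.log (3 * w0) + 1) + 1 with hC1
  have hC10 : 0 ≤ C1 := by positivity
  set c2 : ℝ := Real.log (32 * w0 / η) with hc2
  have hc20 : 0 ≤ c2 := Real.log_nonneg (by
    rw [hw0R, hη]
    norm_num)
  obtain ⟨Λ, hΛ, hΛ2⟩ := exists_Lam c0 C1 C5 (2 + c2 + 3 * C1) hc0 hC10 hC50 (by positivity)
  set M : ℝ := 2 + c2 + 3 * C1 + C1 * Real.log (2 * Λ) with hM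
  have hΛ0 : 0 < Λ := by linarith [show (0 : ℝ) < 10 ^ 13 by positivity]
  have hΛ1 : 1 ≤ Λ := by linarith [show (1 : ℝ) ≤ 10 ^ 13 by norm_num]
  have hlΛ : 0 ≤ Real.log (2 * Λ) := Real.log_nonneg (by linarith)
  have hM0 : 0 < M := by positivity
  refine ⟨M, hM0, ?_⟩
  intro v hv hv1 n hn u F hF
  -- the parameters
  set X : ℝ := 1 + Real.log (1 / v) with hX
  have hlv : 0 ≤ Real.log (1 / v) := Real.log_nonneg (by rw [le_div_iff₀ hv]; linarith)
  have hX1 : 1 ≤ X := by linarith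
  have hX0 : 0 < X := by linarith
  have hlX : 0 ≤ Real.log X := Real.log_nonneg hX1
  have hYv : Yv v = X * (1 + Real.log X) := rfl
  set I : ℕ := ⌈3 / η * (Real.log (3 * w0) + X)⌉₊ with hI
  have hI1 : 3 / η * (Real.log (3 * w0) + X) ≤ I := Nat.le_ceil _
  have hI2 : (I : ℝ) ≤ C1 * X := by
    have h6 := (Nat.ceil_lt_add_one (show 0 ≤ 3 / η * (Real.log (3 * w0) + X) by positivity)).le
    refine h6.trans ?_
    have h7 : Real.log (3 * w0) + X ≤ (Real.log (3 * w0) + 1) * X := by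
      have h9 := le_mul_of_one_le_right hlw hX1
      rw [add_mul, one_mul]
      linarith
    have h8 : 3 / η * (Real.log (3 * w0) + X) ≤ 3 / η * ((Real.log (3 * w0) + 1) * X) :=
      mul_le_mul_of_nonneg_left h7 (by positivity)
    have h9 : (3 / η * (Real.log (3 * w0) + 1) + 1) * X =
        3 / η * ((Real.log (3 * w0) + 1) * X) + X := by ring
    rw [hC1, h9]
    linarith
  set lam : ℕ := ⌈Λ * X ^ 3⌉₊ with hlam
  have hX3 : 1 ≤ X ^ 3 := one_le_pow₀ hX1
  have hlam1 : Λ * X ^ 3 ≤ lam := Nat.le_ceil _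
  have hlam2 : (lam : ℝ) ≤ 2 * Λ * X ^ 3 := by
    have h6 := (Nat.ceil_lt_add_one (show 0 ≤ Λ * X ^ 3 by positivity)).le
    have h7 : 1 ≤ Λ * X ^ 3 := hΛ1.trans (le_mul_of_one_le_right hΛ0.le hX3)
    have h8 : 2 * Λ * X ^ 3 = Λ * X ^ 3 + Λ * X ^ 3 := by ring
    rw [h8]
    linarith
  have hlam13 : (10 : ℝ) ^ 13 ≤ lam :=
    hΛ.trans ((le_mul_of_one_le_right hΛ0.le hX3).trans hlam1)
  have hlam13' : 10 ^ 13 ≤ lam := by exact_mod_cast hlam13
  have hlamp : (0 : ℝ) < lam := by linarith [show (0 : ℝ) < 10 ^ 13 by positivity]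
  have hlam1R : (1 : ℝ) ≤ lam := by linarith [show (1 : ℝ) ≤ 10 ^ 13 by norm_num]
  have hlamI : 1 ≤ (lam : ℝ) ^ I := one_le_pow₀ hlam1R
  set s : ℝ := v * η / (32 * w0 * (lam : ℝ) ^ I) with hs
  have hs0 : 0 < s := by rw [hs]; positivity
  have hs1 : s ≤ 1 := by
    rw [hs, div_le_one (by positivity)]
    have h6 : v * η ≤ 1 := mul_le_one₀ hv1 hη0.le hη1
    have h7 : (1 : ℝ) ≤ 32 * w0 := by rw [hw0R]; norm_num
    exact h6.trans (h7.trans (le_mul_of_one_le_right (by positivity) hlamI))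
  -- the logarithm of 1 / s
  set L : ℝ := 1 + Real.log (1 / s) with hL
  have hls : Real.log (1 / s) = Real.log (1 / v) + c2 + I * Real.log lam := by
    have h6 : 1 / s = (1 / v) * (32 * w0 / η) * (lam : ℝ) ^ I := by
      rw [hs]
      field_simp
    rw [h6, Real.log_mul (by positivity) (by positivity), Real.log_mul (by positivity)
      (by positivity), Real.log_pow]
  have hllam : Real.log lam ≤ Real.log (2 * Λ) + 3 * Real.log X := by
    refine (Real.log_le_log hlamp hlam2).trans (le_of_eq ?_)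
    rw [Real.log_mul (by positivity) (by positivity), Real.log_pow]
    push_cast
    ring
  have hllam0 : 0 ≤ Real.log lam := Real.log_nonneg hlam1R
  have hLM : L ≤ M * (X * (1 + Real.log X)) := by
    have h6 : I * Real.log lam ≤ C1 * X * (Real.log (2 * Λ) + 3 * Real.log X) :=
      mul_le_mul hI2 hllam hllam0 (by positivity)
    have h7 : L ≤ X + c2 + C1 * X * (Real.log (2 * Λ) + 3 * Real.log X) := by
      rw [hL, hls]
      linarith
    refine h7.trans ?_
    have hp1 : 0 ≤ X * Real.log X := by positivity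
    have hp2 : 0 ≤ c2 * (X - 1) := mul_nonneg hc20 (by linarith)
    have hp3 : 0 ≤ c2 * (X * Real.log X) := by positivity
    have hp4 : 0 ≤ C1 * X := by positivity
    have hp5 : 0 ≤ C1 * Real.log (2 * Λ) * (X * Real.log X) := by positivity
    have hp6 : M * (X * (1 + Real.log X)) - (X + c2 + C1 * X * (Real.log (2 * Λ) +
        3 * Real.log X)) = X + c2 * (X - 1) + 3 * (C1 * X) + 2 * (X * Real.log X) +
        c2 * (X * Real.log X) + C1 * Real.log (2 * Λ) * (X * Real.log X) := by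
      rw [hM]
      ring
    linarith
  have hLs : Real.log (1 / s) ≤ M * Yv v := by
    rw [hYv]
    linarith
  have hexp : Real.exp (-(M * Yv v)) ≤ s := by
    have h6 : Real.exp (-(M * Yv v)) ≤ Real.exp (-Real.log (1 / s)) :=
      Real.exp_le_exp.2 (by linarith)
    rw [Real.exp_neg (Real.log (1 / s)), Real.exp_log (by positivity), one_div, inv_inv] at h6
    exact h6
  have hnR : 0 ≤ (n : ℝ) := Nat.cast_nonneg _
  have hsn : 1 ≤ s * n := hn.trans (mul_le_mul_of_nonneg_right hexp hnR)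
  have hn0 : 0 < n := by
    rcases Nat.eq_zero_or_pos n with h | h
    · rw [h] at hsn
      norm_num at hsn
    · exact h
  set K : ℕ := ⌈s * n⌉₊ with hK
  have hK1' : s * n ≤ K := Nat.le_ceil _
  have hK2' : (K : ℝ) ≤ 2 * (s * n) := by
    have h6 := (Nat.ceil_lt_add_one (show 0 ≤ s * n by positivity)).le
    linarith
  have hKR1 : (1 : ℝ) ≤ K := hsn.trans hK1'
  have hK1n : 1 ≤ K := by exact_mod_cast hKR1
  -- L squared
  have hL2 : L ^ 2 ≤ 4 * M ^ 2 * X ^ 3 := by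
    have hL0 : 0 ≤ L := by
      have : 0 ≤ Real.log (1 / s) := Real.log_nonneg (by rw [le_div_iff₀ hs0]; linarith)
      linarith
    have h6 : L ^ 2 ≤ (M * (X * (1 + Real.log X))) ^ 2 := pow_le_pow_left₀ hL0 hLM 2
    have h7 := log_sq_le hX1
    calc L ^ 2 ≤ (M * (X * (1 + Real.log X))) ^ 2 := h6
      _ = M ^ 2 * X ^ 2 * (1 + Real.log X) ^ 2 := by ring
      _ ≤ M ^ 2 * X ^ 2 * (4 * X) := mul_le_mul_of_nonneg_left h7 (by positivity)
      _ = _ := by ring
  have hmain : 2 + I + 3 * (C5 * L ^ 2) ≤ c0 * lam := by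
    have h6 : C5 * L ^ 2 ≤ C5 * (4 * M ^ 2 * X ^ 3) := mul_le_mul_of_nonneg_left hL2 hC50
    have h7 : (I : ℝ) ≤ C1 * X ^ 3 := by
      refine hI2.trans (mul_le_mul_of_nonneg_left ?_ hC10)
      calc X = X * 1 := by ring
        _ ≤ X * X ^ 2 := mul_le_mul_of_nonneg_left (one_le_pow₀ hX1) hX0.le
        _ = X ^ 3 := by ring
    have h8 : c0 * (Λ * X ^ 3) ≤ c0 * lam := mul_le_mul_of_nonneg_left hlam1 hc0.le
    have h9 : (2 + C1 + 12 * C5 * M ^ 2) * X ^ 3 ≤ c0 * Λ * X ^ 3 :=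
      mul_le_mul_of_nonneg_right hΛ2 (by positivity)
    have h10 : (2 + C1 + 12 * C5 * M ^ 2) * X ^ 3 = 2 * X ^ 3 + C1 * X ^ 3 +
        3 * (C5 * (4 * M ^ 2 * X ^ 3)) := by ring
    have h11 : c0 * Λ * X ^ 3 = c0 * (Λ * X ^ 3) := by ring
    rw [h10, h11] at h9
    linarith
  -- the speed
  have hspeed : 3 * (w0 : ℝ) < v * (1 + η / 2) ^ I := by
    have h6 : Real.log (3 * w0) + Real.log (1 / v) < I * Real.log (1 + η / 2) := by
      have h7 : η / 3 ≤ Real.log (1 + η / 2) := by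
        have h8 := Real.one_sub_inv_le_log_of_pos (show 0 < 1 + η / 2 by positivity)
        refine le_trans ?_ h8
        have h9 : 1 - (1 + η / 2)⁻¹ = (η / 2) / (1 + η / 2) := by
          field_simp
          ring
        rw [h9, le_div_iff₀ (by positivity)]
        have h10 : η * η ≤ 1 * η := mul_le_mul_of_nonneg_right hη1 hη0.le
        have h11 : η / 3 * (1 + η / 2) = η / 3 + η * η / 6 := by ring
        rw [h11]
        linarith
      have h8 : 3 / η * (Real.log (3 * w0) + X) * (η / 3) ≤ I * Real.log (1 + η / 2) :=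
        mul_le_mul hI1 h7 (by positivity) (Nat.cast_nonneg _)
      have h9 : 3 / η * (Real.log (3 * w0) + X) * (η / 3) = Real.log (3 * w0) + X := by
        field_simp
      rw [h9] at h8
      linarith
    have h7 : Real.log (3 * w0 * (1 / v)) < Real.log ((1 + η / 2) ^ I) := by
      rw [Real.log_mul (by positivity) (by positivity), Real.log_pow]
      exact h6
    have h8 := (Real.log_lt_log_iff (by positivity) (by positivity)).1 h7
    rw [mul_one_div, div_lt_iff₀ hv] at h8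
    linarith
  -- the count
  set A : ℝ := Real.exp (C5 * L ^ 2) with hA
  set Bb : ℝ := Real.exp (C5 * L ^ 2 - c0 * lam) with hBb
  have hmu := mu0_pos
  have hcount : (F.card : ℝ) ≤ ((Finset.range I).card : ℝ) *
      (mu0 ^ n * (Real.exp (s * n) * A * (A * Bb) ^ K)) := by
    classical
    refine union_bound F (Finset.range I) (fun l q => DL η (w0 * lam ^ q) lam n (gt l) K) _ ?_ ?_
    · intro l hl
      obtain ⟨hsw, i, j, hi, hj, hd⟩ := hF l hl
      exact exists_DL h4 hη0 hη1 (by rw [hw0]; norm_num) (by omega) hK1n hv hn0 hs hK2' hspeed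
        hsw hi hj hd
    · intro q hq G hG hGq
      refine h3 η s A Bb (w0 * lam ^ q) lam n K (fun m => Real.exp (K1 * Real.log (m + 2) ^ 2))
        (fun m => Real.exp (K2 * Real.log (m + 2) ^ 2 - c0 * lam)) (fun m => (Real.exp_pos _).le)
        (fun m => (Real.exp_pos _).le) (fun v m F _ hF => h2 v m F hF) ?_ ?_ ?_ u G
        (fun l hl => ⟨(hF l (hG hl)).1, hGq l hl⟩)
      · intro v m F _ hF
        rw [hη] at hF
        refine h1 (w0 * lam ^ q) lam m ?_ ?_ hlam13' v F hF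
        · have h6 : 1 ≤ lam ^ q := Nat.one_le_pow _ _ (by omega)
          have h7 : w0 * 1 ≤ w0 * lam ^ q := Nat.mul_le_mul_left _ h6
          rw [mul_one] at h7
          exact le_trans (le_of_eq hw0.symm) h7
        · exact hw0e.mul_right _
      · refine (hsa s hs0 hs1 n).trans ?_
        rw [hA]
        refine Real.exp_le_exp.2 (mul_le_mul_of_nonneg_right (le_max_left _ _) (by positivity))
      · have h6 : ∀ m ∈ Finset.range (n + 1),
            Real.exp (K2 * Real.log (m + 2) ^ 2 - c0 * lam) * Real.exp (-s * m) =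
            Real.exp (-(c0 * lam)) * (Real.exp (K2 * Real.log (m + 2) ^ 2) * Real.exp (-s * m)) := by
          intro m _
          rw [sub_eq_add_neg, Real.exp_add]
          ring
        rw [Finset.sum_congr rfl h6, ← Finset.mul_sum]
        refine (mul_le_mul_of_nonneg_left (hsb s hs0 hs1 n) (Real.exp_pos _).le).trans ?_
        rw [hBb, ← Real.exp_add]
        refine Real.exp_le_exp.2 ?_
        have h7 : Cb * (1 + Real.log (1 / s)) ^ 2 ≤ C5 * L ^ 2 :=
          mul_le_mul_of_nonneg_right (le_max_right _ _) (by positivity)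
        linarith
  refine hcount.trans ?_
  rw [Finset.card_range]
  have hIe : (I : ℝ) ≤ Real.exp (K * I) := by
    have h6 := Real.add_one_le_exp ((K : ℝ) * I)
    have h7 : (I : ℝ) ≤ K * I := le_mul_of_one_le_left (Nat.cast_nonneg _) hKR1
    linarith
  have hAB : Real.exp (s * n) * A * (A * Bb) ^ K =
      Real.exp (s * n + C5 * L ^ 2 + K * (2 * (C5 * L ^ 2) - c0 * lam)) := by
    rw [hA, hBb, ← Real.exp_add, ← Real.exp_add, ← Real.exp_nat_mul, ← Real.exp_add]
    congr 1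
    ring
  rw [hAB]
  calc (I : ℝ) * (mu0 ^ n * Real.exp (s * n + C5 * L ^ 2 + K * (2 * (C5 * L ^ 2) - c0 * lam)))
      ≤ Real.exp (K * I) * (mu0 ^ n *
        Real.exp (s * n + C5 * L ^ 2 + K * (2 * (C5 * L ^ 2) - c0 * lam))) :=
        mul_le_mul_of_nonneg_right hIe (by positivity)
    _ = mu0 ^ n * Real.exp (K * I + (s * n + C5 * L ^ 2 + K * (2 * (C5 * L ^ 2) - c0 * lam))) := by
        rw [Real.exp_add (K * I)]
        ring
    _ ≤ mu0 ^ n * Real.exp (-(Real.exp (-(M * Yv v)) * n)) := by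
        refine mul_le_mul_of_nonneg_left (Real.exp_le_exp.2 ?_) (by positivity)
        have h6 : Real.exp (-(M * Yv v)) * n ≤ s * n := mul_le_mul_of_nonneg_right hexp hnR
        have h7 : C5 * L ^ 2 ≤ K * (C5 * L ^ 2) := le_mul_of_one_le_left (by positivity) hKR1
        have h8 : (K : ℝ) * (2 + I + 3 * (C5 * L ^ 2)) ≤ K * (c0 * lam) :=
          mul_le_mul_of_nonneg_left hmain (Nat.cast_nonneg _)
        have h9 : (K : ℝ) * (2 + I + 3 * (C5 * L ^ 2)) = 2 * K + K * I + 3 * (K * (C5 * L ^ 2)) := by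
          ring
        have h10 : (K : ℝ) * (2 * (C5 * L ^ 2) - c0 * lam) = 2 * (K * (C5 * L ^ 2)) -
            K * (c0 * lam) := by ring
        rw [h9] at h8
        rw [h10]
        linarith

end Pool.Agent.Y419.QB
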